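import Pool.Agent.H79.GT.Targets

/-! # Quasimodes: integrals of functions of the leaf coordinate (row FUB) -/

set_option autoImplicit false

namespace Pool.Agent.H33.BQ

open MeasureTheory Set Filter Topology Pool.Agent.H79.GT
open Pool.Agent.H44.DU

lemma fub_mp (t : ℝ) :
    MeasurePreserving (fun z : ℂ => (xi t z, z.im)) (volume : Measure ℂ)
      ((volume : Measure ℝ).prod (volume : Measure ℝ)) := by
  have h1 : MeasurePreserving Complex.measurableEquivRealProd (volume : Measure ℂ)
      ((volume : Measure ℝ).prod (volume : Measure ℝ)) :=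
    Complex.volume_preserving_equiv_real_prod
  have h2 : MeasurePreserving (fun p : ℝ × ℝ => (p.1, p.2 - t * p.1))
      ((volume : Measure ℝ).prod (volume : Measure ℝ))
      ((volume : Measure ℝ).prod (volume : Measure ℝ)) :=
    (MeasurePreserving.id (volume : Measure ℝ)).skew_product
      (g := fun a c => c - t * a) (by fun_prop)
      (Filter.Eventually.of_forall fun a =>
        (measurePreserving_sub_right (volume : Measure ℝ) (t * a)).map_eq)
  have h3 : MeasurePreserving (Prod.swap : ℝ × ℝ → ℝ × ℝ)
      ((volume : Measure ℝ).prod (volume : Measure ℝ))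
      ((volume : Measure ℝ).prod (volume : Measure ℝ)) := Measure.measurePreserving_swap
  exact h3.comp (h2.comp (h3.comp h1))

theorem pf_FUB (h : T_CH) : T_FUB := by
  intro n S t i M hM hint
  obtain ⟨hlt, hmem, -, -, -, hch0, -, hchm, hbotm, -⟩ := h n S t i
  have htopm : Measurable (top S t i) := by
    have : top S t i = fun x => ch S t i x + bot S t i x := by
      funext x; unfold ch; ring
    rw [this]; exact hchm.add hbotm
  obtain ⟨R, hRdef⟩ : ∃ R : Set (ℝ × ℝ), R = {p | p.1 ∈ Ioo (S.xl t i) (S.xr t i) ∧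
      p.2 ∈ Icc (bot S t i p.1) (top S t i p.1)} := ⟨_, rfl⟩
  have hR : MeasurableSet R := by
    rw [hRdef]
    refine (measurable_fst measurableSet_Ioo).inter ?_
    exact (measurableSet_le (hbotm.comp measurable_fst) measurable_snd).inter
      (measurableSet_le measurable_snd (htopm.comp measurable_fst))
  obtain ⟨Ψ, hΨdef⟩ : ∃ Ψ : ℂ → ℝ × ℝ, Ψ = fun z => (xi t z, z.im) := ⟨_, rfl⟩
  have hΨ : MeasurePreserving Ψ (volume : Measure ℂ)
      ((volume : Measure ℝ).prod (volume : Measure ℝ)) := by
    rw [hΨdef]; exact fub_mp t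
  -- the triangle
  have hnull : ∀ c : ℝ, ∀ᵐ z : ℂ, xi t z ≠ c := by
    intro c
    have h1 : ((volume : Measure ℝ).prod (volume : Measure ℝ)) ({c} ×ˢ univ) = 0 := by
      rw [Measure.prod_prod, Real.volume_singleton, zero_mul]
    have h2 : (volume : Measure ℂ) (Ψ ⁻¹' ({c} ×ˢ univ)) = 0 := by
      rw [hΨ.measure_preimage ((measurableSet_singleton c).prod MeasurableSet.univ).nullMeasurableSet]
      exact h1
    rw [ae_iff]
    refine measure_mono_null ?_ h2
    intro z hz
    simp only [Set.mem_ofPred_eq, not_not] at hz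
    rw [hΨdef]
    exact ⟨hz, mem_univ _⟩
  have htri : S.tri i =ᵐ[volume] Ψ ⁻¹' R := by
    filter_upwards [hnull (S.xl t i), hnull (S.xr t i)] with z h1 h2
    apply propext
    show z ∈ S.tri i ↔ Ψ z ∈ R
    rw [hmem z, hRdef, hΨdef]
    constructor
    · rintro ⟨a1, a2, a3, a4⟩
      exact ⟨⟨lt_of_le_of_ne a1 (Ne.symm h1), lt_of_le_of_ne a2 h2⟩, a3, a4⟩
    · rintro ⟨⟨a1, a2⟩, a3, a4⟩
      exact ⟨a1.le, a2.le, a3, a4⟩
  -- measurability
  have hMm : AEStronglyMeasurable (fun p : ℝ × ℝ => M p.1)
      (((volume : Measure ℝ).prod (volume : Measure ℝ)).restrict R) := by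
    have h1 : AEStronglyMeasurable (fun p : ℝ × ℝ => M p.1)
        (((volume : Measure ℝ).restrict (Ioo (S.xl t i) (S.xr t i))).prod
          (volume : Measure ℝ)) := hM.comp_fst
    refine h1.mono_measure ?_
    have h2 : ((volume : Measure ℝ).restrict (Ioo (S.xl t i) (S.xr t i))).prod
        (volume : Measure ℝ) = ((volume : Measure ℝ).prod (volume : Measure ℝ)).restrict
          (Ioo (S.xl t i) (S.xr t i) ×ˢ univ) := by
      rw [← Measure.prod_restrict, Measure.restrict_univ]
    rw [h2]
    refine Measure.restrict_mono ?_ le_rfl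
    rw [hRdef]
    intro p hp
    exact ⟨hp.1, mem_univ _⟩
  have hFm : AEStronglyMeasurable (R.indicator fun p : ℝ × ℝ => M p.1)
      ((volume : Measure ℝ).prod (volume : Measure ℝ)) :=
    (aestronglyMeasurable_indicator_iff hR).2 hMm
  -- the sections
  have hsec : ∀ x y, R.indicator (fun p : ℝ × ℝ => M p.1) (x, y) =
      (Ioo (S.xl t i) (S.xr t i)).indicator (fun x =>
        (Icc (bot S t i x) (top S t i x)).indicator (fun _ => M x) y) x := by
    intro x y
    by_cases hx : x ∈ Ioo (S.xl t i) (S.xr t i)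
    · rw [indicator_of_mem hx]
      by_cases hy : y ∈ Icc (bot S t i x) (top S t i x)
      · rw [indicator_of_mem hy, indicator_of_mem (by rw [hRdef]; exact ⟨hx, hy⟩)]
      · rw [indicator_of_notMem hy, indicator_of_notMem]
        rw [hRdef]
        exact fun hc => hy hc.2
    · rw [indicator_of_notMem hx, indicator_of_notMem]
      rw [hRdef]
      exact fun hc => hx hc.1
  have hvol : ∀ x, (volume : Measure ℝ).real (Icc (bot S t i x) (top S t i x)) =
      ch S t i x := by
    intro x
    rw [Real.volume_real_Icc_of_le]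
    · rfl
    · have := hch0 x
      unfold ch at this
      linarith
  have hin : ∀ x, Integrable (fun y => R.indicator (fun p : ℝ × ℝ => M p.1) (x, y)) := by
    intro x
    simp_rw [hsec]
    by_cases hx : x ∈ Ioo (S.xl t i) (S.xr t i)
    · simp_rw [indicator_of_mem hx]
      exact (integrableOn_const (by simp) (by simp)).integrable_indicator measurableSet_Icc
    · simp_rw [indicator_of_notMem hx]
      exact integrable_zero _ _ _
  have hI : ∀ x, ∫ y, R.indicator (fun p : ℝ × ℝ => M p.1) (x, y) =
      (Ioo (S.xl t i) (S.xr t i)).indicator (fun x => M x * ch S t i x) x := by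
    intro x
    simp_rw [hsec]
    by_cases hx : x ∈ Ioo (S.xl t i) (S.xr t i)
    · simp_rw [indicator_of_mem hx]
      rw [integral_indicator measurableSet_Icc, setIntegral_const, hvol, smul_eq_mul, mul_comm]
    · simp_rw [indicator_of_notMem hx]
      exact integral_zero _ _
  have hIn : ∀ x, ∫ y, ‖R.indicator (fun p : ℝ × ℝ => M p.1) (x, y)‖ =
      ‖(Ioo (S.xl t i) (S.xr t i)).indicator (fun x => M x * ch S t i x) x‖ := by
    intro x
    simp_rw [hsec]
    by_cases hx : x ∈ Ioo (S.xl t i) (S.xr t i)
    · simp_rw [indicator_of_mem hx, norm_indicator_eq_indicator_norm]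
      rw [integral_indicator measurableSet_Icc, setIntegral_const, hvol, smul_eq_mul, mul_comm,
        norm_mul, Real.norm_of_nonneg (hch0 x)]
    · simp_rw [indicator_of_notMem hx]
      simp
  have hFint : Integrable (R.indicator fun p : ℝ × ℝ => M p.1)
      ((volume : Measure ℝ).prod (volume : Measure ℝ)) := by
    rw [integrable_prod_iff hFm]
    refine ⟨Filter.Eventually.of_forall hin, ?_⟩
    simp_rw [hIn]
    exact (hint.integrable_indicator measurableSet_Ioo).norm
  have hRint : IntegrableOn (fun p : ℝ × ℝ => M p.1) R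
      ((volume : Measure ℝ).prod (volume : Measure ℝ)) := (integrable_indicator_iff hR).1 hFint
  have hΨR := hΨ.restrict_preimage hR
  have hcomp : (fun z : ℂ => M (xi t z)) = (fun p : ℝ × ℝ => M p.1) ∘ Ψ := by
    rw [hΨdef]; rfl
  constructor
  · rw [integrableOn_congr_set_ae htri, hcomp]
    exact (hΨR.integrable_comp hMm).2 hRint
  · rw [setIntegral_congr_set htri]
    have h1 : ∫ z in Ψ ⁻¹' R, M (xi t z) = ∫ p in R, M p.1
        ∂((volume : Measure ℝ).prod (volume : Measure ℝ)) := by
      have h2 := integral_map hΨR.aemeasurable (f := fun p : ℝ × ℝ => M p.1) (by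
        rw [hΨR.map_eq]; exact hMm)
      rw [hΨR.map_eq] at h2
      rw [h2, hΨdef]
    rw [h1, ← integral_indicator hR, integral_prod _ hFint]
    simp_rw [hI]
    rw [integral_indicator measurableSet_Ioo]

end Pool.Agent.H33.BQ
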