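import Pool.Agent.H79.GT.Targets

/-! # Quasimodes: the sides of a triangle (row PART) -/

set_option autoImplicit false

namespace Pool.Agent.H33.BQ

open MeasureTheory Set Filter Topology Pool.Agent.H79.GT
open Pool.Agent.H44.DU

lemma part_cross (a b c x : ℝ) (ha : x ≠ a) (hb : x ≠ b) (hc : x ≠ c)
    (h1 : min a (min b c) < x) (h2 : x < max a (max b c)) :
    ((a < x ∧ x < b) ∨ (b < x ∧ x < c) ∨ (c < x ∧ x < a)) ∧
      ((b < x ∧ x < a) ∨ (c < x ∧ x < b) ∨ (a < x ∧ x < c)) := by
  rw [min_lt_iff, min_lt_iff] at h1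
  rw [lt_max_iff, lt_max_iff] at h2
  rcases lt_or_gt_of_ne ha with h | h <;> rcases lt_or_gt_of_ne hb with h' | h' <;>
    rcases lt_or_gt_of_ne hc with h'' | h'' <;>
    simp [h, h', h'', h.not_gt, h'.not_gt, h''.not_gt] at h1 h2 ⊢

lemma part_xl {n : ℕ} (S : Surf n) (t : ℝ) (i : Fin n) (k : Fin 3) :
    S.xl t i ≤ xi t (S.v i k) ∧ xi t (S.v i k) ≤ S.xr t i := by
  unfold Surf.xl Surf.xr
  fin_cases k
  · exact ⟨min_le_left _ _, le_max_left _ _⟩
  · exact ⟨(min_le_right _ _).trans (min_le_left _ _),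
      (le_max_left _ _).trans (le_max_right _ _)⟩
  · exact ⟨(min_le_right _ _).trans (min_le_right _ _),
      (le_max_right _ _).trans (le_max_right _ _)⟩

theorem pf_PART : T_PART := by
  intro n S t
  refine ⟨?_, ?_, ?_, ?_, ?_⟩
  · intro i
    have e0 : ∀ᵐ x : ℝ, x ≠ xi t (S.v i 0) := by
      simpa using (Set.countable_singleton (xi t (S.v i 0))).ae_notMem (volume : Measure ℝ)
    have e1 : ∀ᵐ x : ℝ, x ≠ xi t (S.v i 1) := by
      simpa using (Set.countable_singleton (xi t (S.v i 1))).ae_notMem (volume : Measure ℝ)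
    have e2 : ∀ᵐ x : ℝ, x ≠ xi t (S.v i 2) := by
      simpa using (Set.countable_singleton (xi t (S.v i 2))).ae_notMem (volume : Measure ℝ)
    filter_upwards [e0, e1, e2] with x h0 h1 h2 hl hr
    obtain ⟨hI, hJ⟩ := part_cross _ _ _ x h0 h1 h2 hl hr
    constructor
    · rcases hI with h | h | h
      · exact ⟨(i, 0), rfl, h⟩
      · exact ⟨(i, 1), rfl, h⟩
      · exact ⟨(i, 2), rfl, h⟩
    · rcases hJ with h | h | h
      · exact ⟨(i, 0), rfl, h⟩
      · exact ⟨(i, 1), rfl, h⟩
      · exact ⟨(i, 2), rfl, h⟩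
  · intro s x
    unfold Surf.InI Surf.InJ Pool.Agent.H79.GT.le ri
    rw [min_lt_iff, lt_max_iff]
    constructor
    · rintro (h | h)
      · exact ⟨Or.inl h.1, Or.inr h.2⟩
      · exact ⟨Or.inr h.1, Or.inl h.2⟩
    · rintro ⟨h | h, h' | h'⟩
      · exact absurd (h.trans h') (lt_irrefl _)
      · exact Or.inl ⟨h, h'⟩
      · exact Or.inr ⟨h, h'⟩
      · exact absurd (h.trans h') (lt_irrefl _)
  · intro s
    have hP := part_xl S t s.1 s.2
    have hQ := part_xl S t s.1 (s.2 + 1)
    exact ⟨le_min hP.1 hQ.1, (min_le_left _ _).trans (le_max_left _ _), max_le hP.2 hQ.2⟩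
  · intro s hs
    have hPQ : xi t (S.P s) = xi t (S.Q s) := by
      unfold Pool.Agent.H79.GT.le ri at hs
      have a1 := le_max_left (xi t (S.P s)) (xi t (S.Q s))
      have a2 := le_max_right (xi t (S.P s)) (xi t (S.Q s))
      have b1 := min_le_left (xi t (S.P s)) (xi t (S.Q s))
      have b2 := min_le_right (xi t (S.P s)) (xi t (S.Q s))
      exact le_antisymm (by linarith) (by linarith)
    have hle : Pool.Agent.H79.GT.le S t s = xi t (S.P s) := by
      unfold Pool.Agent.H79.GT.le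
      rw [← hPQ, min_self]
    rw [hle]
    have hvert : ∀ k : Fin 3, S.v s.1 k = S.P s ∨ S.v s.1 k = S.Q s ∨ S.v s.1 k = S.O s := by
      intro k
      obtain ⟨i, l⟩ := s
      unfold Surf.P Surf.Q Surf.O
      fin_cases k <;> fin_cases l <;> simp
    rcases le_total (xi t (S.P s)) (xi t (S.O s)) with h | h
    · left
      have hall : ∀ k : Fin 3, xi t (S.P s) ≤ xi t (S.v s.1 k) := by
        intro k
        rcases hvert k with h' | h' | h' <;> rw [h']
        · rw [← hPQ]
        · exact h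
      exact le_antisymm (le_min (hall 0) (le_min (hall 1) (hall 2))) (part_xl S t s.1 s.2).1
    · right
      have hall : ∀ k : Fin 3, xi t (S.v s.1 k) ≤ xi t (S.P s) := by
        intro k
        rcases hvert k with h' | h' | h' <;> rw [h']
        · rw [← hPQ]
        · exact h
      exact le_antisymm (part_xl S t s.1 s.2).2 (max_le (hall 0) (max_le (hall 1) (hall 2)))
  · intro s hs z hz
    have hne : xi t (S.P s) - xi t (S.Q s) ≠ 0 := by
      intro h
      have hPQ := sub_eq_zero.1 h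
      unfold Pool.Agent.H79.GT.le ri at hs
      rw [hPQ, min_self, max_self] at hs
      exact lt_irrefl _ hs
    rw [segment_eq_image'] at hz
    obtain ⟨m, hm, rfl⟩ := hz
    have hxi : xi t (S.P s + m • (S.Q s - S.P s)) =
        xi t (S.P s) + m * (xi t (S.Q s) - xi t (S.P s)) := by
      rw [xi_add, Complex.real_smul, xi_mul, xi_sub]
    have hlam : S.lam t s (xi t (S.P s + m • (S.Q s - S.P s))) = m := by
      unfold Surf.lam
      rw [hxi]
      field_simp
      ring
    refine ⟨?_, ?_, ?_⟩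
    · rw [hxi]
      unfold Pool.Agent.H79.GT.le
      have a1 := min_le_left (xi t (S.P s)) (xi t (S.Q s))
      have a2 := min_le_right (xi t (S.P s)) (xi t (S.Q s))
      nlinarith [hm.1, hm.2, mul_nonneg hm.1 (sub_nonneg.2 a2),
        mul_nonneg (sub_nonneg.2 hm.2) (sub_nonneg.2 a1)]
    · rw [hxi]
      unfold ri
      have a1 := le_max_left (xi t (S.P s)) (xi t (S.Q s))
      have a2 := le_max_right (xi t (S.P s)) (xi t (S.Q s))
      nlinarith [hm.1, hm.2, mul_nonneg hm.1 (sub_nonneg.2 a2),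
        mul_nonneg (sub_nonneg.2 hm.2) (sub_nonneg.2 a1)]
    · show S.P s + m • (S.Q s - S.P s) = S.P s +
        (S.lam t s (xi t (S.P s + m • (S.Q s - S.P s))) : ℂ) * (S.Q s - S.P s)
      rw [hlam, Complex.real_smul]

end Pool.Agent.H33.BQ
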